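import Pool.Agent.helper47.TK.SpecN

/-!
# Project tk: module KE3 (the Dedekind zeta function on the real axis)
-/

set_option autoImplicit false

namespace Pool.Agent.TK

open Polynomial NumberField Pool.Agent.FJ Pool.Agent.HC Pool.Agent.SJ
open scoped NumberField Topology ComplexConjugate

noncomputable section

theorem KE3_lim (L : Type) [Field L] [NumberField L] :
    Filter.Tendsto (fun n : ℕ => (∑ k ∈ Finset.Icc 1 n, (nid L k : ℝ)) / (n : ℝ)) Filter.atTop
      (𝓝 (NumberField.dedekindZeta_residue L)) := by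
  unfold nid
  refine ((NumberField.Ideal.tendsto_norm_le_div_atTop₀ L).comp
    tendsto_natCast_atTop_atTop).congr fun n ↦ ?_
  simp only [Function.comp_apply, Nat.cast_le, ← Nat.cast_sum]
  congr
  rw [← add_left_inj 1, ← Ideal.card_norm_le_eq_card_norm_le_add_one,
    show Finset.Icc 1 n = Finset.Ioc 0 n from Finset.Icc_succ_left_eq_Ioc _ _,
    show 1 = Nat.card {I : Ideal (𝓞 L) // Ideal.absNorm I = 0} by simp [Ideal.absNorm_eq_zero_iff],
    Finset.sum_Ioc_add_eq_sum_Icc (n.zero_le),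
    ← Finset.card_preimage_eq_sum_card_image_eq (fun k _ ↦ Ideal.finite_setOfPred_absNorm_eq k)]
  simp [Set.coe_eq_subtype]

theorem KE3_term (f : ℕ → ℝ) (s : ℝ) (hs : 1 < s) (n : ℕ) :
    LSeries.term (fun n => (f n : ℂ)) (s : ℂ) n = ((f n * (n : ℝ) ^ (-s) : ℝ) : ℂ) := by
  rcases eq_or_ne n 0 with hn | hn
  · subst hn
    rw [LSeries.term_zero, Nat.cast_zero, Real.zero_rpow (by linarith), mul_zero,
      Complex.ofReal_zero]
  · rw [LSeries.term_of_ne_zero hn, Complex.ofReal_mul, Real.rpow_neg (Nat.cast_nonneg n),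
      Complex.ofReal_inv, Complex.ofReal_cpow (Nat.cast_nonneg n), Complex.ofReal_natCast,
      div_eq_mul_inv]

theorem KE3 : KE3_stmt := by
  intro L _ _
  have hlim := KE3_lim L
  have hsum : ∀ s : ℝ, 1 < s → Summable fun n : ℕ => (nid L n : ℝ) * (n : ℝ) ^ (-s) := by
    intro s hs
    have h1 : LSeriesSummable (fun n => (((nid L n : ℝ)) : ℂ)) (s : ℂ) := by
      refine LSeriesSummable_of_sum_norm_bigO_and_nonneg ?_ (fun n => Nat.cast_nonneg _)
        zero_le_one hs
      exact Asymptotics.isBigO_atTop_natCast_rpow_of_tendsto_div_rpow (a := NumberField.dedekindZeta_residue L) (by simpa using hlim)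
    have h2 : Summable (fun n => (((nid L n : ℝ) * (n : ℝ) ^ (-s) : ℝ) : ℂ)) := by
      refine h1.congr (fun n => ?_)
      exact (KE3_term (fun n => (nid L n : ℝ)) s hs n)
    exact Complex.summable_ofReal.mp h2
  refine ⟨hsum, NumberField.dedekindZeta_residue L, NumberField.dedekindZeta_residue_pos L, ?_⟩
  have h3 := LSeries_tendsto_sub_mul_nhds_one_of_tendsto_sum_div_and_nonneg
    (fun n => (nid L n : ℝ)) hlim (fun n => Nat.cast_nonneg _)
  rw [← Filter.tendsto_ofReal_iff]
  refine h3.congr' ?_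
  filter_upwards [self_mem_nhdsWithin] with s hs
  have h4 : LSeries (fun n => (((nid L n : ℝ)) : ℂ)) (s : ℂ) =
      ((∑' n : ℕ, (nid L n : ℝ) * (n : ℝ) ^ (-s) : ℝ) : ℂ) := by
    rw [LSeries, Complex.ofReal_tsum]
    exact tsum_congr (fun n => KE3_term (fun n => (nid L n : ℝ)) s hs n)
  rw [h4]
  push_cast
  rfl

end

end Pool.Agent.TK
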